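import Mathlib
import Pool.Agent.Results.MP_728180_al.NoStrictDominance

/-!
# MP_de5a23_al: a non-unimodal local Artinian algebra never has contiguous Jordan type

If the Hilbert function `H` of a local Artinian algebra `A` (Gorenstein or not) is not unimodal, then
the Jordan type of multiplication by an element `ℓ` of the maximal ideal is never equal to the
contiguous partition `P_c(H)`; it does not even dominate it.  So the statement of Q1 is false: there
are no `H`, `K`, `ℓ` as asked for, whether or not `Q_K(0)` is strong Lefschetz.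
-/

namespace Pool.Agent.Results.MP_de5a23_al.NeverContiguous

open IsLocalRing Finset
open Pool.Agent.Results.MP_728180_al.NoStrictDominance

/-- `(H 0, …, H j)` weakly increases and then weakly decreases. -/
def Unimodal (j : ℕ) (H : ℕ → ℕ) : Prop :=
  ∃ m ≤ j, (∀ a b, a ≤ b → b ≤ m → H a ≤ H b) ∧ (∀ a b, m ≤ a → a ≤ b → b ≤ j → H b ≤ H a)

/-- `P` dominates `Q` (possibly `P = Q`). -/
def Dominates (P Q : Multiset ℕ) : Prop := ∀ m, topSum Q m ≤ topSum P m

lemma exists_valley {j : ℕ} {H : ℕ → ℕ} (h : ¬ Unimodal j H) : ∃ v, IsValley H v := by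
  by_contra hv
  push Not at hv
  apply h
  obtain ⟨m, hm, hmax⟩ := exists_max_image (range (j + 1)) H ⟨0, by simp⟩
  rw [mem_range] at hm
  have hmax' : ∀ i, i ≤ j → H i ≤ H m := fun i hi => hmax i (mem_range.2 (by omega))
  refine ⟨m, by omega, fun a b hab hbm => ?_, fun a b hma hab hbj => ?_⟩
  · by_contra hlt
    rw [not_le] at hlt
    have h1 : a ≠ b := by rintro rfl; exact lt_irrefl _ hlt
    have h2 := hmax' a (by omega)
    have h3 : b ≠ m := by rintro rfl; omega
    exact hv b ⟨a, m, by omega, by omega, hlt, by omega⟩
  · by_contra hlt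
    rw [not_le] at hlt
    have h1 : a ≠ b := by rintro rfl; exact lt_irrefl _ hlt
    have h2 := hmax' b hbj
    have h3 : a ≠ m := by rintro rfl; omega
    exact hv a ⟨m, b, by omega, by omega, by omega, hlt⟩

/-- **Q1 is false (the negated form holds).**  Let `A` be a commutative local ring with maximal
ideal `𝔪` that is an algebra over a field `k`, let `𝔪^{j+1} = 0` and let `ℓ ∈ 𝔪`.  If the Hilbert
function `H = (h_0, …, h_j)` of `A` is not unimodal, then the Jordan type `P` of multiplication by
`ℓ` is different from the contiguous partition `P_c(H)`, and does not dominate it. -/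
theorem result {k A : Type*} [Field k] [CommRing A] [IsLocalRing A] [Algebra k A]
    (l : A) (hl : l ∈ maximalIdeal A) (j : ℕ) (hj : maximalIdeal A ^ (j + 1) = ⊥)
    (hnu : ¬ Unimodal j (hilb k A))
    (P : Multiset ℕ) (hP : IsJordanType (LinearMap.mulLeft k l) P) :
    P ≠ contig j (hilb k A) ∧ ¬ Dominates P (contig j (hilb k A)) := by
  have key : ¬ Dominates P (contig j (hilb k A)) := by
    intro hdom
    have hfin : Module.Finite k A := by
      obtain ⟨n, b, e, -⟩ := hP
      exact Module.Finite.of_basis e
    set H := hilb k A with hH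
    have hc0 : ∀ i, j < i → c k A i = 0 := by
      intro i hi
      have h1 : c k A i ≤ c k A (j + 1) := c_anti k A hi
      have h2 : c k A (j + 1) = 0 := by
        have : M k A (j + 1) = ⊥ := by
          ext x; rw [mem_M, hj]; rfl
        rw [c, this, finrank_bot]
      omega
    have h0 : ∀ i, j < i → H i = 0 := by
      intro i hi
      have h1 := hilb_add k A i
      have h2 := hc0 i hi
      rw [← hH] at h1
      omega
    have hsum : ∀ u, ∑ i ∈ Ico u (j + 1), H i = c k A u := by
      intro u
      by_cases hu : u ≤ j + 1
      · have h1 := sum_range_add_sum_Ico H hu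
        have h2 := sum_hilb k A u
        have h3 := sum_hilb k A (j + 1)
        have h4 := hc0 (j + 1) (by omega)
        rw [← hH] at h2 h3
        omega
      · rw [Ico_eq_empty (by omega), sum_empty, hc0 u (by omega)]
    obtain ⟨s, v, e, q, h1, h2, h3, h4, h5⟩ := valley_bound H j h0 (exists_valley hnu)
    have h6 := rank_lt k hl h1 h2 h3 h4
    have h7 := le_trans (S_le_of_dominates hdom (e - s)) (S_le_finrank _ hP (e - s))
    have h8 := sum_hilb k A s
    have h9 : hilb k A (v + 1) + c k A (v + 2) = c k A (v + 1) := hilb_add k A (v + 1)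
    rw [hsum] at h5
    rw [← hH] at h8 h9
    omega
  refine ⟨?_, key⟩
  rintro rfl
  exact key fun m => le_rfl

end Pool.Agent.Results.MP_de5a23_al.NeverContiguous
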